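import Pool.Agent.H91.WE.G1

/-!
# Rows ADM and ADX of wee: admissible partners
-/

set_option autoImplicit false

namespace Pool.Agent.H91.WE

open Finset Pool.Agent.H71.WE

section
variable {V E : Type} [Fintype V] [DecidableEq V] [DecidableEq E]

/-- the edges between `z` and `X` -/
def bt (G : Gr V E) (A : Finset E) (z : V) (X : Finset V) : Finset E :=
  A.filter (fun e => (G.s e ∈ ({z} : Finset V) ∧ G.t e ∈ X) ∨
    (G.s e ∈ X ∧ G.t e ∈ ({z} : Finset V)))

theorem mem_bt {G : Gr V E} {A : Finset E} {z : V} {X : Finset V} {q : E} {w : V}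
    (hq : q ∈ A) (hj : Jn G q z w) (hw : w ∈ X) : q ∈ bt G A z X := by
  unfold bt
  rw [mem_filter]
  refine ⟨hq, ?_⟩
  rcases hj with ⟨h1, h2⟩ | ⟨h1, h2⟩
  · left; rw [h1, h2]; exact ⟨mem_singleton_self _, hw⟩
  · right; rw [h1, h2]; exact ⟨hw, mem_singleton_self _⟩

/-- an edge at `z` with the other end outside `X` -/
theorem exists_out {G : Gr V E} {A : Finset E} {z : V} {X : Finset V}
    (h : (bt G A z X).card < cn G A {z}) :
    ∃ q ∈ A, ∃ w, w ≠ z ∧ w ∉ X ∧ Jn G q z w := by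
  by_contra hcon
  push Not at hcon
  have hsub : A.filter (fun e => Cr G {z} e) ⊆ bt G A z X := by
    intro q hq
    rw [mem_filter] at hq
    obtain ⟨w, hw, hj⟩ := jn_of_cr hq.2
    by_cases hwX : w ∈ X
    · exact mem_bt hq.1 hj hwX
    · exact absurd hj (hcon q hq.1 w hw hwX)
  have := card_le_card hsub
  unfold cn at h
  omega

end

theorem pf_ADM (h1 : T_CUT) (h2 : T_CUX) : T_ADM := by
  classical
  intro V E _ _ _ G A z ρ hρ hev hle p hp y hj hy
  have hCF := h1 V E G A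
  obtain ⟨hcux1, hcux2, -⟩ := h2 V E G A
  set d := cn G A with hd
  -- the degree of `z`
  have hz1 : 1 ≤ d {z} := by
    rw [hd]
    unfold cn
    rw [Nat.succ_le_iff, card_pos]
    refine ⟨p, mem_filter.2 ⟨hp, (jn_cr hj _).2 (Or.inl ⟨mem_singleton_self _, ?_⟩)⟩⟩
    rw [mem_singleton]; exact hy
  have hz2 : 2 ≤ d {z} := by
    obtain ⟨k, hk⟩ := hev
    omega
  -- dangerous sets
  set Dg : Finset V → Prop := fun X => z ∉ X ∧ X.Nonempty ∧ X ≠ univ.erase z ∧ d X ≤ ρ X + 1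
    with hDg
  have fact1 : ∀ X, Dg X → 2 * (bt G A z X).card ≤ d {z} := by
    intro X ⟨hzX, hX, hXU, hdX⟩
    have hdisj : Disjoint ({z} : Finset V) X := disjoint_singleton_left.2 hzX
    have e1 := hcux2 {z} X hdisj
    have e2 : ({z} ∪ X)ᶜ = Xᶜ.erase z := by
      ext w
      simp only [mem_compl, mem_union, mem_singleton, mem_erase]
      tauto
    have e3 : d ({z} ∪ X) = d (Xᶜ.erase z) := by rw [← e2]; exact (cn_compl G A _).symm
    have hY : (Xᶜ.erase z).Nonempty := by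
      by_contra hne
      rw [not_nonempty_iff_eq_empty] at hne
      apply hXU
      ext w
      rw [mem_erase]
      constructor
      · intro hw
        exact ⟨fun h => hzX (h ▸ hw), mem_univ w⟩
      · rintro ⟨hw, -⟩
        by_contra hwX
        have : w ∈ Xᶜ.erase z := mem_erase.2 ⟨hw, mem_compl.2 hwX⟩
        rw [hne] at this
        exact notMem_empty _ this
    have hYU : Xᶜ.erase z ≠ univ.erase z := by
      intro h
      obtain ⟨w, hw⟩ := hX
      have h3 : w ∈ univ.erase z := mem_erase.2 ⟨fun h => hzX (h ▸ hw), mem_univ w⟩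
      rw [← h, mem_erase, mem_compl] at h3
      exact h3.2 hw
    have e4 := hle (Xᶜ.erase z) (notMem_erase _ _) hY hYU
    rw [hρ.sym X hzX] at e4
    have e5 : d {z} + d X = d (Xᶜ.erase z) + 2 * (bt G A z X).card := by rw [← e3]; exact e1
    have e6 : ρ X ≤ d (Xᶜ.erase z) := e4
    obtain ⟨k, hk⟩ := hev
    omega
  by_cases hD : ∃ X, Dg X ∧ y ∈ X
  · -- a dangerous set of largest size
    obtain ⟨X1, hX1, hmax⟩ := exists_max_image (univ.filter fun X => Dg X ∧ y ∈ X)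
      (fun X => X.card) (by
        obtain ⟨X, hX⟩ := hD
        exact ⟨X, mem_filter.2 ⟨mem_univ X, hX⟩⟩)
    rw [mem_filter] at hX1
    obtain ⟨-, hX1D, hyX1⟩ := hX1
    have hmax' : ∀ X, Dg X → y ∈ X → X.card ≤ X1.card := fun X h h' =>
      hmax X (mem_filter.2 ⟨mem_univ X, h, h'⟩)
    have hm1 := fact1 X1 hX1D
    obtain ⟨q, hq, y', hy', hy'X, hjq⟩ := exists_out (G := G) (A := A) (z := z) (X := X1)
      (by show (bt G A z X1).card < d {z}; omega)
    have hqp : q ≠ p := by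
      intro h
      rw [h] at hjq
      apply hy'X
      have : y' = y := by
        rcases hj with ⟨a1, a2⟩ | ⟨a1, a2⟩ <;> rcases hjq with ⟨b1, b2⟩ | ⟨b1, b2⟩
        · rw [← a2, ← b2]
        · exact absurd (a2.symm.trans b2) hy
        · exact absurd (a1.symm.trans b1) hy
        · rw [← a1, ← b1]
      rw [this]; exact hyX1
    refine ⟨q, hq, hqp, y', hy', hjq, ?_⟩
    intro X2 hzX2 hX2U hyX2 hy'X2
    by_contra hcon
    have hdX2 : d X2 ≤ ρ X2 + 1 := by
      have h3 : ¬ (ρ X2 + 2 ≤ d X2) := hcon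
      omega
    obtain ⟨hzX1, hX1n, hX1U, hdX1⟩ := hX1D
    have hX2D : Dg X2 := ⟨hzX2, ⟨y, hyX2⟩, hX2U, hdX2⟩
    have hnsub : ¬ X1 ⊆ X2 := by
      intro hsub
      have h3 : X1.card < X2.card := card_lt_card ⟨hsub, fun h => hy'X (h hy'X2)⟩
      have := hmax' X2 hX2D hyX2
      omega
    have hA1 : (X1 \ X2).Nonempty := by
      rw [sdiff_nonempty]; exact hnsub
    have hA2 : (X2 \ X1).Nonempty := ⟨y', mem_sdiff.2 ⟨hy'X2, hy'X⟩⟩
    have hyU : y ∈ univ.erase z := mem_erase.2 ⟨hy, mem_univ y⟩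
    have hA1U : X1 \ X2 ≠ univ.erase z := by
      intro h
      rw [← h, mem_sdiff] at hyU
      exact hyU.2 hyX2
    have hA2U : X2 \ X1 ≠ univ.erase z := by
      intro h
      rw [← h, mem_sdiff] at hyU
      exact hyU.2 hyX1
    have hzA1 : z ∉ X1 \ X2 := fun h => hzX1 (mem_sdiff.1 h).1
    have hzA2 : z ∉ X2 \ X1 := fun h => hzX2 (mem_sdiff.1 h).1
    have c1 : d (X1 \ X2) + d (X2 \ X1) + 2 ≤ d X1 + d X2 :=
      hcux1 X1 X2 p hp y z (jn_symm hj) hyX1 hyX2 hzX1 hzX2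
    have c2 := hρ.pos X1 X2 hzX1 hzX2
    have c3 : ρ (X1 \ X2) ≤ d (X1 \ X2) := hle _ hzA1 hA1 hA1U
    have c4 : ρ (X2 \ X1) ≤ d (X2 \ X1) := hle _ hzA2 hA2 hA2U
    by_cases hU : X1 ∪ X2 = univ.erase z
    · -- every edge at `z` goes to one of the two sets
      have hm2 := fact1 X2 hX2D
      have hsub : A.filter (fun e => Cr G {z} e) ⊆ bt G A z X1 ∪ bt G A z X2 := by
        intro g hg
        rw [mem_filter] at hg
        obtain ⟨w, hw, hjg⟩ := jn_of_cr hg.2
        have hwU : w ∈ X1 ∪ X2 := by rw [hU]; exact mem_erase.2 ⟨hw, mem_univ w⟩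
        rw [mem_union] at hwU ⊢
        rcases hwU with h | h
        · exact Or.inl (mem_bt hg.1 hjg h)
        · exact Or.inr (mem_bt hg.1 hjg h)
      have h3 := card_le_card hsub
      have h4 := card_union_add_card_inter (bt G A z X1) (bt G A z X2)
      have h5 : 1 ≤ (bt G A z X1 ∩ bt G A z X2).card := by
        rw [Nat.succ_le_iff, card_pos]
        exact ⟨p, mem_inter.2 ⟨mem_bt hp hj hyX1, mem_bt hp hj hyX2⟩⟩
      have h6 : d {z} = (A.filter (fun e => Cr G {z} e)).card := rfl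
      omega
    · have hUD : ρ (X1 ∪ X2) + 2 ≤ d (X1 ∪ X2) := by
        by_contra hc
        have hD' : Dg (X1 ∪ X2) := by
          refine ⟨?_, ⟨y, mem_union_left _ hyX1⟩, hU, by omega⟩
          rw [mem_union]
          tauto
        have h3 := hmax' _ hD' (mem_union_left _ hyX1)
        have h4 : X1.card < (X1 ∪ X2).card :=
          card_lt_card ⟨subset_union_left, fun h => hy'X (h (mem_union_right _ hy'X2))⟩
        omega
      have c5 : d (X1 ∩ X2) + d (X1 ∪ X2) ≤ d X1 + d X2 := hCF.sub X1 X2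
      have c6 := hρ.sub X1 X2 hzX1 hzX2
      have hyI : y ∈ X1 ∩ X2 := mem_inter.2 ⟨hyX1, hyX2⟩
      have hzI : z ∉ X1 ∩ X2 := fun h => hzX1 (mem_inter.1 h).1
      have hIU : X1 ∩ X2 ≠ univ.erase z := by
        intro h
        apply hX1U
        apply subset_antisymm
        · intro w hw
          exact mem_erase.2 ⟨fun h => hzX1 (h ▸ hw), mem_univ w⟩
        · rw [← h]; exact inter_subset_left
      have c7 : ρ (X1 ∩ X2) ≤ d (X1 ∩ X2) := hle _ hzI ⟨y, hyI⟩ hIU
      have hdisj : Disjoint (X1 ∩ X2) (X1 \ X2) := by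
        rw [disjoint_left]
        intro w hw hw'
        exact (mem_sdiff.1 hw').2 (mem_inter.1 hw).2
      have hun : X1 ∩ X2 ∪ X1 \ X2 = X1 := by
        ext w
        simp only [mem_union, mem_inter, mem_sdiff]
        tauto
      have c8 := hCF.par _ _ hdisj
      rw [hun] at c8
      have e1 := hρ.ev X1
      have e2 := hρ.ev (X1 ∩ X2)
      have e3 := hρ.ev (X1 \ X2)
      have f1 : d (X1 ∩ X2) = ρ (X1 ∩ X2) := by omega
      have f2 : d (X1 \ X2) = ρ (X1 \ X2) := by omega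
      have f3 : d X1 = ρ X1 + 1 := by omega
      rw [f1, f2, f3] at c8
      obtain ⟨k1, hk1⟩ := e1
      obtain ⟨k2, hk2⟩ := e2
      obtain ⟨k3, hk3⟩ := e3
      obtain ⟨k4, hk4⟩ := c8
      omega
  · obtain ⟨q, hq, hqp, y', hy', hjq⟩ := exists_edge_at z p hz2
    refine ⟨q, hq, hqp, y', hy', hjq, ?_⟩
    intro X hzX hXU hyX _
    by_contra hcon
    exact hD ⟨X, ⟨hzX, ⟨y, hyX⟩, hXU, by
      have h3 : ¬ (ρ X + 2 ≤ d X) := hcon
      omega⟩, hyX⟩

theorem pf_ADX (h1 : T_CUT) (h2 : T_CUX) : T_ADX := by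
  classical
  intro V E _ _ _ G A c z hc hec hdeg p hp y hj hy
  have hCF := h1 V E G A
  obtain ⟨hcux1, hcux2, -⟩ := h2 V E G A
  set d := cn G A with hd
  set Dg : Finset V → Prop := fun X => z ∉ X ∧ X.Nonempty ∧ d X ≤ c + 1 with hDg
  have hlow : ∀ X : Finset V, X.Nonempty → z ∉ X → c ≤ d X := by
    intro X hX hzX
    apply hec X hX
    intro h
    exact hzX (by rw [h]; exact mem_univ z)
  by_cases hD : ∃ X, Dg X ∧ y ∈ X
  · obtain ⟨X1, hX1, hmax⟩ := exists_max_image (univ.filter fun X => Dg X ∧ y ∈ X)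
      (fun X => X.card) (by
        obtain ⟨X, hX⟩ := hD
        exact ⟨X, mem_filter.2 ⟨mem_univ X, hX⟩⟩)
    rw [mem_filter] at hX1
    obtain ⟨-, ⟨hzX1, hX1n, hdX1⟩, hyX1⟩ := hX1
    have hmax' : ∀ X, Dg X → y ∈ X → X.card ≤ X1.card := fun X h h' =>
      hmax X (mem_filter.2 ⟨mem_univ X, h, h'⟩)
    have hm1 : (bt G A z X1).card < d {z} := by
      have e1 : d {z} + d X1 = d ({z} ∪ X1) + 2 * (bt G A z X1).card :=
        hcux2 {z} X1 (disjoint_singleton_left.2 hzX1)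
      by_contra h
      have h' : d {z} ≤ (bt G A z X1).card := by omega
      have h3 : c + 2 ≤ d {z} := hdeg
      omega
    obtain ⟨q, hq, y', hy', hy'X, hjq⟩ := exists_out (G := G) (A := A) (z := z) (X := X1) hm1
    have hqp : q ≠ p := by
      intro h
      rw [h] at hjq
      apply hy'X
      have : y' = y := by
        rcases hj with ⟨a1, a2⟩ | ⟨a1, a2⟩ <;> rcases hjq with ⟨b1, b2⟩ | ⟨b1, b2⟩
        · rw [← a2, ← b2]
        · exact absurd (a2.symm.trans b2) hy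
        · exact absurd (a1.symm.trans b1) hy
        · rw [← a1, ← b1]
      rw [this]; exact hyX1
    refine ⟨q, hq, hqp, y', hy', hjq, ?_⟩
    intro X2 hzX2 hyX2 hy'X2
    by_contra hcon
    have hdX2 : d X2 ≤ c + 1 := by
      have h3 : ¬ (c + 2 ≤ d X2) := hcon
      omega
    have hX2D : Dg X2 := ⟨hzX2, ⟨y, hyX2⟩, hdX2⟩
    have hnsub : ¬ X1 ⊆ X2 := by
      intro hsub
      have h3 : X1.card < X2.card := card_lt_card ⟨hsub, fun h => hy'X (h hy'X2)⟩
      have := hmax' X2 hX2D hyX2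
      omega
    have hA1 : (X1 \ X2).Nonempty := by
      rw [sdiff_nonempty]; exact hnsub
    have hA2 : (X2 \ X1).Nonempty := ⟨y', mem_sdiff.2 ⟨hy'X2, hy'X⟩⟩
    have hzA1 : z ∉ X1 \ X2 := fun h => hzX1 (mem_sdiff.1 h).1
    have hzA2 : z ∉ X2 \ X1 := fun h => hzX2 (mem_sdiff.1 h).1
    have c1 : d (X1 \ X2) + d (X2 \ X1) + 2 ≤ d X1 + d X2 :=
      hcux1 X1 X2 p hp y z (jn_symm hj) hyX1 hyX2 hzX1 hzX2
    have c3 := hlow _ hA1 hzA1
    have c4 := hlow _ hA2 hzA2
    have hUD : c + 2 ≤ d (X1 ∪ X2) := by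
      by_contra hc'
      have hD' : Dg (X1 ∪ X2) := by
        refine ⟨?_, ⟨y, mem_union_left _ hyX1⟩, by omega⟩
        rw [mem_union]
        tauto
      have h3 := hmax' _ hD' (mem_union_left _ hyX1)
      have h4 : X1.card < (X1 ∪ X2).card :=
        card_lt_card ⟨subset_union_left, fun h => hy'X (h (mem_union_right _ hy'X2))⟩
      omega
    have c5 : d (X1 ∩ X2) + d (X1 ∪ X2) ≤ d X1 + d X2 := hCF.sub X1 X2
    have hyI : y ∈ X1 ∩ X2 := mem_inter.2 ⟨hyX1, hyX2⟩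
    have hzI : z ∉ X1 ∩ X2 := fun h => hzX1 (mem_inter.1 h).1
    have c7 := hlow _ ⟨y, hyI⟩ hzI
    have hdisj : Disjoint (X1 ∩ X2) (X1 \ X2) := by
      rw [disjoint_left]
      intro w hw hw'
      exact (mem_sdiff.1 hw').2 (mem_inter.1 hw).2
    have hun : X1 ∩ X2 ∪ X1 \ X2 = X1 := by
      ext w
      simp only [mem_union, mem_inter, mem_sdiff]
      tauto
    have c8 := hCF.par _ _ hdisj
    rw [hun] at c8
    have f1 : d (X1 ∩ X2) = c := by omega
    have f2 : d (X1 \ X2) = c := by omega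
    have f3 : d X1 = c + 1 := by omega
    rw [f1, f2, f3] at c8
    obtain ⟨k1, hk1⟩ := hc
    obtain ⟨k4, hk4⟩ := c8
    omega
  · have hz2 : 2 ≤ d {z} := le_trans (by omega) hdeg
    obtain ⟨q, hq, hqp, y', hy', hjq⟩ := exists_edge_at z p hz2
    refine ⟨q, hq, hqp, y', hy', hjq, ?_⟩
    intro X hzX hyX _
    by_contra hcon
    exact hD ⟨X, ⟨hzX, ⟨y, hyX⟩, by
      have h3 : ¬ (c + 2 ≤ d X) := hcon
      omega⟩, hyX⟩

end Pool.Agent.H91.WE
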