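import Pool.Agent.H71.WE.Targets

/-!
# Rows SP1, G1, GQ, G0T, GB1 of wee
-/

set_option autoImplicit false
set_option linter.unusedSectionVars false

namespace Pool.Agent.H91.WE

open Finset Pool.Agent.H71.WE

section
variable {V E : Type} [Fintype V] [DecidableEq V] [DecidableEq E]

/-- the other end of an edge which crosses `{u}` -/
theorem jn_of_cr {G : Gr V E} {u : V} {t : E} (h : Cr G {u} t) : ∃ w, w ≠ u ∧ Jn G t u w := by
  unfold Cr at h
  simp only [mem_singleton] at h
  rcases h with ⟨h1, h2⟩ | ⟨h1, h2⟩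
  · exact ⟨G.t t, h2, Or.inl ⟨h1, rfl⟩⟩
  · exact ⟨G.s t, h1, Or.inr ⟨rfl, h2⟩⟩

theorem exists_cr {G : Gr V E} {A : Finset E} {X : Finset V} (e : E) (h : 2 ≤ cn G A X) :
    ∃ t ∈ A, t ≠ e ∧ Cr G X t := by
  by_contra hcon
  push Not at hcon
  have hsub : A.filter (fun t => Cr G X t) ⊆ {e} := by
    intro t ht
    rw [mem_filter] at ht
    rw [mem_singleton]
    by_contra hne
    exact hcon t ht.1 hne ht.2
  have := card_le_card hsub
  rw [card_singleton] at this
  unfold cn at h
  omega

theorem exists_edge_at {G : Gr V E} {A : Finset E} (u : V) (e : E) (h : 2 ≤ cn G A {u}) :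
    ∃ t ∈ A, t ≠ e ∧ ∃ w, w ≠ u ∧ Jn G t u w := by
  obtain ⟨t, h1, h2, h3⟩ := exists_cr e h
  exact ⟨t, h1, h2, jn_of_cr h3⟩

theorem ec_single {G : Gr V E} {A : Finset E} {c : ℕ} (h : Ec G A c) {u x : V} (hux : u ≠ x) :
    c ≤ cn G A {u} := by
  apply h _ (singleton_nonempty u)
  intro hu
  have : x ∈ ({u} : Finset V) := by rw [hu]; exact mem_univ x
  rw [mem_singleton] at this
  exact hux this.symm

theorem cn_erase (G : Gr V E) {A : Finset E} {e : E} (he : e ∈ A) (X : Finset V) :
    cn G A X = cn G (A.erase e) X + (if Cr G X e then 1 else 0) := by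
  conv_lhs => rw [← insert_erase he]
  unfold cn
  rw [filter_insert]
  split_ifs with h
  · rw [card_insert_of_notMem]
    intro hm
    exact (mem_erase.1 (mem_filter.1 hm).1).1 rfl
  · rfl

theorem cr_spl {G : Gr V E} {p g : E} (y y' : V) (h : g ≠ p) (X : Finset V) :
    Cr (spl G p y y') X g ↔ Cr G X g := by
  unfold Cr spl
  simp only [Function.update_of_ne h]

theorem jn_spl (G : Gr V E) (p : E) (y y' : V) : Jn (spl G p y y') p y y' := by
  left
  unfold spl
  simp

theorem cn_spl {G : Gr V E} {p : E} (y y' : V) {A : Finset E} (h : p ∉ A) (X : Finset V) :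
    cn (spl G p y y') A X = cn G A X := by
  unfold cn
  congr 1
  apply filter_congr
  intro g hg
  exact cr_spl y y' (by rintro rfl; exact h hg) X

theorem co_spl {G : Gr V E} {p : E} (y y' : V) {F : Finset E} (h : p ∉ F) {a b : V}
    (hc : Co (spl G p y y') F a b) : Co G F a b := by
  intro X ha hb
  obtain ⟨e, he, hcr⟩ := hc X ha hb
  exact ⟨e, he, (cr_spl y y' (by rintro rfl; exact h he) X).1 hcr⟩

end

theorem pf_SP1 : T_SP1 := by
  intro V E _ _ _ G A z y y' p q hp hq hqp hjp hjq hy hy'
  refine ⟨?_, ?_⟩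
  · intro X
    have hp' : p ∈ A.erase q := mem_erase.2 ⟨hqp.symm, hp⟩
    have e1 := cn_erase G hq X
    have e2 := cn_erase G hp' X
    have e3 := cn_erase (spl G p y y') hp' X
    have e4 := cn_spl (G := G) y y' (notMem_erase p (A.erase q)) X
    rw [e1, e2, e3, e4]
    simp only [jn_cr hjp X, jn_cr hjq X, jn_cr (jn_spl G p y y') X]
    by_cases h1 : z ∈ X <;> by_cases h2 : y ∈ X <;> by_cases h3 : y' ∈ X <;> simp [h1, h2, h3]
  · refine ⟨?_, ?_, ?_⟩
    · intro e he
      rw [mem_erase] at he
      by_cases h : e = p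
      · rw [if_pos h]
        intro g hg
        rw [mem_insert, mem_singleton] at hg
        rcases hg with rfl | rfl
        · exact hp
        · exact hq
      · rw [if_neg h]
        intro g hg
        rw [mem_singleton] at hg
        rw [hg]
        exact he.2
    · intro e he
      by_cases h : e = p
      · subst h
        rw [if_pos rfl]
        have h1 : (spl G e y y').s e = y := by simp [spl]
        have h2 : (spl G e y y').t e = y' := by simp [spl]
        rw [id, id, h1, h2]
        have := co_trans (co_symm (co_edge hjp)) (co_edge hjq)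
        rwa [← insert_eq] at this
      · rw [if_neg h]
        have h1 : (spl G p y y').s e = G.s e := by simp [spl, h]
        have h2 : (spl G p y y').t e = G.t e := by simp [spl, h]
        rw [id, id, h1, h2]
        exact co_edge (Or.inl ⟨rfl, rfl⟩)
    · intro e he e' he' hne
      rw [mem_erase] at he he'
      rw [disjoint_left]
      intro g hg hg'
      by_cases h : e = p
      · rw [if_pos h, mem_insert, mem_singleton] at hg
        by_cases h' : e' = p
        · exact hne (h.trans h'.symm)
        · rw [if_neg h', mem_singleton] at hg'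
          rcases hg with rfl | rfl
          · exact h' hg'.symm
          · exact he'.1 hg'.symm
      · rw [if_neg h, mem_singleton] at hg
        by_cases h' : e' = p
        · rw [if_pos h', mem_insert, mem_singleton] at hg'
          rcases hg' with h3 | h3
          · exact h (hg.symm.trans h3)
          · exact he.1 (hg.symm.trans h3)
        · rw [if_neg h', mem_singleton] at hg'
          exact hne (hg.symm.trans hg')

theorem pf_G1 : T_G1 := by
  intro V E _ _ _ G A r u x e hr hec he hj hux hGC
  have h2 : 2 ≤ cn G A {u} := (ec_single hec hux).trans' (by omega)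
  obtain ⟨t, ht, hte, w, hw, hjt⟩ := exists_edge_at u e h2
  obtain ⟨P, Q, hP, hQ, hPQ, heP, heQ, htP, htQ, hco, hres⟩ :=
    hGC u w t ⟨hr, hec, he, ht, hte.symm, hux, hw.symm, hj, hjt⟩
  refine ⟨P ∪ Q ∪ {t}, ?_, ?_, ?_⟩
  · intro g hg
    rw [mem_union, mem_union, mem_singleton] at hg
    rw [mem_erase]
    rcases hg with (hg | hg) | hg
    · exact ⟨fun h => heP (h ▸ hg), hP hg⟩
    · exact ⟨fun h => heQ (h ▸ hg), hQ hg⟩
    · exact ⟨hg ▸ hte, hg ▸ ht⟩
  · rcases hco with ⟨-, h⟩ | ⟨-, h⟩
    · refine co_mono ?_ (co_trans (co_edge hjt) (co_symm h))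
      intro g hg
      rw [mem_union, mem_singleton] at hg
      rw [mem_union, mem_union, mem_singleton]
      tauto
    · refine co_mono ?_ (co_symm h)
      intro g hg
      rw [mem_union, mem_union]
      tauto
  · have : A \ insert e (P ∪ Q ∪ {t}) = A \ (P ∪ Q ∪ {e, t}) := by
      ext g
      simp only [mem_sdiff, mem_insert, mem_union, mem_singleton]
      tauto
    rw [this]
    exact hres

theorem pf_GQ (h1 : T_Q) : T_GQ := by
  intro V E _ _ _ G A r u v a b e t hG hab hdeg
  obtain ⟨hr, hec, he, ht, het, huv, hab', hje, hjt⟩ := hG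
  rcases hab with rfl | rfl
  · obtain ⟨F, hF, hFv, hco, hres⟩ := h1 V E r G A a u b e t
      ⟨hr, hec, hdeg, he, ht, het, jn_symm hje, hjt, huv, hab'.symm⟩
    refine ⟨F, ∅, hF, empty_subset _, disjoint_empty_right _, ?_, notMem_empty _, ?_,
      notMem_empty _, Or.inr ⟨hco, co_refl _ _ _⟩, ?_⟩
    · intro h
      obtain ⟨h2, h3⟩ := hFv e h
      rcases hje with h4 | h4
      · exact h3 h4.2
      · exact h2 h4.1
    · intro h
      obtain ⟨h2, h3⟩ := hFv t h
      rcases hjt with h4 | h4
      · exact h2 h4.1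
      · exact h3 h4.2
    · rw [union_empty]; exact hres
  · obtain ⟨F, hF, hFv, hco, hres⟩ := h1 V E r G A b u a e t
      ⟨hr, hec, hdeg, he, ht, het, jn_symm hje, jn_symm hjt, huv, hab'⟩
    refine ⟨F, ∅, hF, empty_subset _, disjoint_empty_right _, ?_, notMem_empty _, ?_,
      notMem_empty _, Or.inl ⟨hco, co_refl _ _ _⟩, ?_⟩
    · intro h
      obtain ⟨h2, h3⟩ := hFv e h
      rcases hje with h4 | h4
      · exact h3 h4.2
      · exact h2 h4.1
    · intro h
      obtain ⟨h2, h3⟩ := hFv t h
      rcases hjt with h4 | h4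
      · exact h3 h4.2
      · exact h2 h4.1
    · rw [union_empty]; exact hres

theorem pf_G0T (h1 : T_G1) : T_G0T := by
  intro V E _ _ _ G A r u v x e t hG hec' hIG
  obtain ⟨hr, hec, he, ht, het, huv, hvx, hje, hjt⟩ := hG
  by_cases hux : u = x
  · refine ⟨∅, ∅, empty_subset _, empty_subset _, disjoint_empty_right _, notMem_empty _,
      notMem_empty _, notMem_empty _, notMem_empty _, Or.inr ⟨?_, co_refl _ _ _⟩, ?_⟩
    · rw [hux]; exact co_refl _ _ _
    · intro X hX hX'
      have hsub : ({e, t} : Finset E) ⊆ A := by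
        intro g hg
        rw [mem_insert, mem_singleton] at hg
        rcases hg with rfl | rfl
        · exact he
        · exact ht
      have h2 := cn_sdiff G hsub X
      have h3 : cn G {e, t} X ≤ 2 := (card_filter_le _ _).trans (card_le_two)
      have h4 := hec X hX hX'
      rw [empty_union, empty_union]
      omega
  · have het' : e ∈ A.erase t := mem_erase.2 ⟨het, he⟩
    obtain ⟨Q, hQ, hco, hres⟩ := h1 V E (spl G e u x) (A.erase t) r u x e hr hec' het'
      (jn_spl G e u x) hux (fun a b t' h => hIG (spl G e u x) (A.erase t)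
        (card_erase_lt_of_mem ht) u x a b e t' h)
    have heQ : e ∉ Q := fun h => (mem_erase.1 (hQ h)).1 rfl
    have htQ : t ∉ Q := fun h => (mem_erase.1 (mem_erase.1 (hQ h)).2).1 rfl
    refine ⟨Q, ∅, ?_, empty_subset _, disjoint_empty_right _, heQ, notMem_empty _, htQ,
      notMem_empty _, Or.inr ⟨co_spl u x heQ hco, co_refl _ _ _⟩, ?_⟩
    · intro g hg
      exact (mem_erase.1 (mem_erase.1 (hQ hg)).2).2
    · have hset : A \ (Q ∪ ∅ ∪ {e, t}) = A.erase t \ insert e Q := by
        ext g
        simp only [mem_sdiff, mem_insert, mem_union, mem_singleton, mem_erase, notMem_empty]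
        tauto
      rw [hset]
      intro X hX hX'
      have h2 := hres X hX hX'
      rwa [cn_spl] at h2
      simp

theorem pf_GB1 : T_GB1 := by
  intro V E _ _ _ G A r u v a b e t hG hva hvb hec' hIG
  obtain ⟨hr, hec, he, ht, het, huv, hab, hje, hjt⟩ := hG
  have h2 : 2 ≤ cn G (A.erase e) {v} := (ec_single hec' hva).trans' (by omega)
  obtain ⟨p, hp, hpt, x, hx, hjp⟩ := exists_edge_at v t h2
  have hte : t ∈ A.erase e := mem_erase.2 ⟨het.symm, ht⟩
  obtain ⟨P, Q, hP, hQ, hPQ, hpP, hpQ, htP, htQ, hco, hres⟩ :=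
    hIG G (A.erase e) (card_erase_lt_of_mem he) v x a b p t
      ⟨hr, hec', hp, hte, hpt, hx.symm, hab, hjp, hjt⟩
  have hPA : P ⊆ A := hP.trans (erase_subset _ _)
  have hQA : Q ⊆ A := hQ.trans (erase_subset _ _)
  have hpA : p ∈ A := (mem_erase.1 hp).2
  have hdis : Disjoint P (insert p Q) := by
    rw [disjoint_insert_right]; exact ⟨hpP, hPQ⟩
  have hins : insert p Q ⊆ A := by
    intro g hg
    rw [mem_insert] at hg
    rcases hg with rfl | hg
    · exact hpA
    · exact hQA hg
  have htI : t ∉ insert p Q := by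
    rw [mem_insert]; rintro (h | h)
    · exact hpt h.symm
    · exact htQ h
  rcases hco with ⟨h3, h4⟩ | ⟨h3, h4⟩
  · have h5 : Co G (insert p Q) v b := by
      have := co_trans (co_edge hjp) h4
      rwa [← insert_eq] at this
    obtain ⟨P1, hP1, hPt1⟩ := pt_exists h3
    obtain ⟨P2, hP2, hPt2⟩ := pt_exists h5
    refine ⟨P1, P2, hP1.trans hPA, hP2.trans hins, ?_, fun h => htP (hP1 h),
      fun h => htI (hP2 h), hPt1, hPt2, ?_⟩
    · exact disjoint_of_subset_left hP1 (disjoint_of_subset_right hP2 hdis)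
    · refine ec_mono ?_ hres
      intro g hg
      simp only [mem_sdiff, mem_insert, mem_union, mem_singleton, mem_erase] at hg ⊢
      refine ⟨hg.1.2, ?_⟩
      rintro ((h | h) | h)
      · exact hg.2 (Or.inl (Or.inl (hP1 h)))
      · have := hP2 h
        rw [mem_insert] at this
        tauto
      · exact hg.2 (Or.inr (Or.inr h))
  · have h5 : Co G (insert p Q) v a := by
      have := co_trans (co_edge hjp) h4
      rwa [← insert_eq] at this
    obtain ⟨P2, hP2, hPt2⟩ := pt_exists h3
    obtain ⟨P1, hP1, hPt1⟩ := pt_exists h5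
    refine ⟨P1, P2, hP1.trans hins, hP2.trans hPA, ?_, fun h => htI (hP1 h),
      fun h => htP (hP2 h), hPt1, hPt2, ?_⟩
    · exact (disjoint_of_subset_left hP2 (disjoint_of_subset_right hP1 hdis)).symm
    · refine ec_mono ?_ hres
      intro g hg
      simp only [mem_sdiff, mem_insert, mem_union, mem_singleton, mem_erase] at hg ⊢
      refine ⟨hg.1.2, ?_⟩
      rintro ((h | h) | h)
      · have := hP1 h
        rw [mem_insert] at this
        tauto
      · exact hg.2 (Or.inl (Or.inl (hP2 h)))
      · exact hg.2 (Or.inr (Or.inr h))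

end Pool.Agent.H91.WE
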