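import Pool.Agent.H91.WE.G1

/-!
# Row OT of wee
-/

set_option autoImplicit false
set_option linter.unusedSectionVars false

namespace Pool.Agent.H91.WE

open Finset Pool.Agent.H71.WE

section
variable {V E : Type} [Fintype V] [DecidableEq V] [DecidableEq E]

/-- the graph with one more edge `none`, which joins `a` and `b` -/
def plus (G : Gr V E) (a b : V) : Gr V (Option E) :=
  ⟨fun o => o.elim a G.s, fun o => o.elim b G.t⟩

/-- the edge set with the new edge -/
def Ap (A : Finset E) : Finset (Option E) := insert none (A.map Function.Embedding.some)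

theorem mem_Ap {A : Finset E} {g : E} : some g ∈ Ap A ↔ g ∈ A := by simp [Ap]

theorem none_Ap {A : Finset E} : none ∈ Ap A := by simp [Ap]

/-- the old edges of a set of edges -/
def dn (A : Finset E) (P : Finset (Option E)) : Finset E := A.filter (fun g => some g ∈ P)

theorem mem_dn {A : Finset E} {P : Finset (Option E)} {g : E} :
    g ∈ dn A P ↔ g ∈ A ∧ some g ∈ P := by simp [dn]

theorem co_dn {G : Gr V E} {A : Finset E} {P : Finset (Option E)} {a b u v : V}
    (hP : P ⊆ Ap A) (hn : none ∉ P) (h : Co (plus G a b) P u v) : Co G (dn A P) u v := by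
  intro X hu hv
  obtain ⟨e, he, hc⟩ := h X hu hv
  cases e with
  | none => exact absurd he hn
  | some g => exact ⟨g, mem_dn.2 ⟨mem_Ap.1 (hP he), he⟩, hc⟩

theorem cn_plus_ge (G : Gr V E) (A : Finset E) (a b : V) (X : Finset V) :
    cn G A X ≤ cn (plus G a b) (Ap A) X := by
  unfold cn
  rw [← card_map Function.Embedding.some]
  apply card_le_card
  intro o ho
  rw [mem_map] at ho
  obtain ⟨g, hg, rfl⟩ := ho
  rw [mem_filter] at hg ⊢
  exact ⟨mem_Ap.2 hg.1, hg.2⟩

theorem ec_dn {G : Gr V E} {A : Finset E} {P Q : Finset (Option E)} {a b : V} {e : E} {r : ℕ}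
    (h : Ec (plus G a b) (Ap A \ (P ∪ Q ∪ {some e, none})) r) :
    Ec G (A \ (dn A P ∪ insert e (dn A Q))) r := by
  intro X h1 h2
  refine (h X h1 h2).trans ?_
  unfold cn
  rw [← card_map (s := (A \ (dn A P ∪ insert e (dn A Q))).filter (fun e => Cr G X e))
    Function.Embedding.some]
  apply card_le_card
  intro o ho
  rw [mem_filter, mem_sdiff] at ho
  obtain ⟨⟨ho1, ho2⟩, ho3⟩ := ho
  cases o with
  | none => exact absurd (by simp) ho2
  | some g =>
    rw [mem_map]
    refine ⟨g, ?_, rfl⟩
    rw [mem_filter, mem_sdiff]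
    refine ⟨⟨mem_Ap.1 ho1, ?_⟩, ho3⟩
    intro hg
    apply ho2
    rw [mem_union, mem_insert, mem_dn, mem_dn] at hg
    rcases hg with hg | hg | hg
    · exact mem_union_left _ (mem_union_left _ hg.2)
    · rw [hg]; exact mem_union_right _ (mem_insert_self _ _)
    · exact mem_union_left _ (mem_union_right _ hg.2)

theorem dn_sub {A : Finset E} {P : Finset (Option E)} : dn A P ⊆ A := filter_subset _ _

theorem dn_dis {A : Finset E} {P Q : Finset (Option E)} (h : Disjoint P Q) :
    Disjoint (dn A P) (dn A Q) := by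
  rw [disjoint_left]
  intro g h1 h2
  exact disjoint_left.1 h (mem_dn.1 h1).2 (mem_dn.1 h2).2

theorem not_dn {A : Finset E} {P : Finset (Option E)} {e : E} (h : some e ∉ P) : e ∉ dn A P :=
  fun h1 => h (mem_dn.1 h1).2

end

theorem pf_OT (hGS : T_GS) : T_OT := by
  intro V E _ _ _ G A r x a b hr hE hax hbx
  have h2x : 2 ≤ cn G A {x} := (by omega : 2 ≤ r + 2).trans (ec_single hE hax.symm)
  have h2a : 2 ≤ cn G A {a} := (by omega : 2 ≤ r + 2).trans (ec_single hE hax)
  by_cases hab : a = b
  · subst hab
    obtain ⟨t, ht⟩ : (A.filter (fun e => Cr G {a} e)).Nonempty := by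
      apply card_pos.1
      unfold cn at h2a
      omega
    rw [mem_filter] at ht
    obtain ⟨htA, htc⟩ := ht
    obtain ⟨w, hwa, hjt⟩ := jn_of_cr htc
    obtain ⟨e, heA, het, y', hyx, hje⟩ := exists_edge_at x t h2x
    obtain ⟨P, Q, hPA, hQA, hPQ, heP, heQ, htP, htQ, hcase, hres⟩ :=
      hGS V E r G A x y' a w e t ⟨hr, hE, heA, htA, het, hyx.symm, hwa.symm, hje, hjt⟩
    rcases hcase with ⟨hc1, hc2⟩ | ⟨hc1, hc2⟩
    · refine ⟨P, Q ∪ {e, t}, hPA, ?_, ?_, hc1, ?_, ?_⟩
      · apply union_subset hQA
        intro g hg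
        rw [mem_insert, mem_singleton] at hg
        rcases hg with rfl | rfl
        · exact heA
        · exact htA
      · rw [disjoint_union_right]
        refine ⟨hPQ, ?_⟩
        rw [disjoint_right]
        intro g hg
        rw [mem_insert, mem_singleton] at hg
        rcases hg with rfl | rfl
        · exact heP
        · exact htP
      · have h1 : Co G ({e} ∪ Q) x w := co_trans (co_edge hje) hc2
        have h2 : Co G ({e} ∪ Q ∪ {t}) x a := co_trans h1 (co_symm (co_edge hjt))
        refine co_mono ?_ h2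
        intro g hg
        simp only [mem_union, mem_singleton, mem_insert] at hg ⊢
        tauto
      · rw [← union_assoc]; exact hres
    · refine ⟨insert t P, insert e Q, ?_, ?_, ?_, ?_, ?_, ?_⟩
      · exact insert_subset htA hPA
      · exact insert_subset heA hQA
      · rw [disjoint_insert_left, disjoint_insert_right]
        refine ⟨?_, heP, hPQ⟩
        rw [mem_insert, not_or]
        exact ⟨het.symm, htQ⟩
      · have h1 : Co G (P ∪ {t}) x a := co_trans hc1 (co_symm (co_edge hjt))
        refine co_mono ?_ h1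
        intro g hg
        simp only [mem_union, mem_singleton, mem_insert] at hg ⊢
        tauto
      · have h1 : Co G ({e} ∪ Q) x a := co_trans (co_edge hje) hc2
        refine co_mono ?_ h1
        intro g hg
        simp only [mem_union, mem_singleton, mem_insert] at hg ⊢
        tauto
      · have h1 : insert t P ∪ insert e Q = P ∪ Q ∪ {e, t} := by
          ext g
          simp only [mem_union, mem_singleton, mem_insert]
          tauto
        rw [h1]; exact hres
  · obtain ⟨e, he⟩ : (A.filter (fun e => Cr G {x} e)).Nonempty := by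
      apply card_pos.1
      unfold cn at h2x
      omega
    rw [mem_filter] at he
    obtain ⟨heA, hec⟩ := he
    obtain ⟨y', hyx, hje⟩ := jn_of_cr hec
    obtain ⟨P, Q, hPA, hQA, hPQ, heP, heQ, htP, htQ, hcase, hres⟩ :=
      hGS V (Option E) r (plus G a b) (Ap A) x y' a b (some e) none
        ⟨hr, fun X h1 h2 => (hE X h1 h2).trans (cn_plus_ge G A a b X), mem_Ap.2 heA, none_Ap,
          by simp, hyx.symm, hab, hje, Or.inl ⟨rfl, rfl⟩⟩
    have hres' := ec_dn hres
    have hd : Disjoint (dn A P) (insert e (dn A Q)) := by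
      rw [disjoint_insert_right]
      exact ⟨not_dn heP, dn_dis hPQ⟩
    have key : ∀ c : V, Co (plus G a b) Q y' c → Co G (insert e (dn A Q)) x c := by
      intro c hc
      have h1 : Co G ({e} ∪ dn A Q) x c := co_trans (co_edge hje) (co_dn hQA htQ hc)
      refine co_mono ?_ h1
      intro g hg
      simp only [mem_union, mem_singleton, mem_insert] at hg ⊢
      tauto
    rcases hcase with ⟨hc1, hc2⟩ | ⟨hc1, hc2⟩
    · exact ⟨dn A P, insert e (dn A Q), dn_sub, insert_subset heA dn_sub, hd,
        co_dn hPA htP hc1, key b hc2, hres'⟩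
    · refine ⟨insert e (dn A Q), dn A P, insert_subset heA dn_sub, dn_sub, hd.symm,
        key a hc2, co_dn hPA htP hc1, ?_⟩
      rw [union_comm]; exact hres'

end Pool.Agent.H91.WE
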